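import Pool.Agent.Helper99.PG.Goals

/-!
PROJECT C2, target (a): TREESURJ. Every lattice point comes from a tree.
-/

namespace Pool.Agent.Helper83.PG

open Pool.Agent.Helper99.PG
open scoped Classical

theorem chosen_sum {V : Type} [Fintype V] [DecidableEq V] (G : BG (Option V)) (W : Finset V)
    (A : V → Bool) (U : Finset G.C) :
    chosen G W A U = ∑ C ∈ U, chosen G W A {C} := by
  unfold chosen
  rw [← Nat.cast_sum]
  congr 1
  rw [Finset.card_eq_sum_card_fiberwise (f := fun v => pick G A v) (t := U)]
  · apply Finset.sum_congr rfl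
    intro C hC
    congr 1
    ext v
    simp only [Finset.mem_filter, Finset.mem_singleton]
    constructor
    · rintro ⟨⟨h1, h2⟩, h3⟩
      exact ⟨h1, h3⟩
    · rintro ⟨h1, h3⟩
      exact ⟨⟨h1, h3 ▸ hC⟩, h3⟩
  · intro v hv
    simp only [Finset.coe_filter, Set.mem_ofPred_eq] at hv
    exact hv.2

theorem inner_univ {V : Type} [Fintype V] [DecidableEq V] (G : BG (Option V)) (W : Finset V) :
    inner G W Finset.univ = (W.card : ℤ) := by
  unfold Pool.Agent.Helper99.PG.inner
  simp

theorem inner_empty {V : Type} [Fintype V] [DecidableEq V] (G : BG (Option V)) (W : Finset V) :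
    inner G W ∅ = 0 := by
  unfold Pool.Agent.Helper99.PG.inner
  simp

theorem inner_nonneg {V : Type} [Fintype V] [DecidableEq V] (G : BG (Option V)) (W : Finset V)
    (U : Finset G.C) : 0 ≤ inner G W U := by
  unfold Pool.Agent.Helper99.PG.inner
  exact Int.natCast_nonneg _

theorem exits_univ {V : Type} [Fintype V] [DecidableEq V] (G : BG (Option V)) (κ : Bool) :
    exits G κ Finset.univ = 1 := by
  unfold exits
  simp

theorem exits_nonneg {V : Type} [Fintype V] [DecidableEq V] (G : BG (Option V)) (κ : Bool)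
    (U : Finset G.C) : 0 ≤ exits G κ U := by
  unfold exits
  split_ifs <;> norm_num

theorem treeSurj : GoalTreeSurj := by
  intro hSlack hHall hCycPot hCase1 hCase2 hSame hCycle V _ _ H G hG κ W j hj
  -- the numbers
  set A1 : V → Bool := fun _ => true with hA1
  set c : G.C → ℤ := fun C => jof G κ W A1 C + chosen G W A1 {C} - j C with hc
  have hcU : ∀ U : Finset G.C, ∑ C ∈ U, c C =
      (∑ e with (G.lf e ∈ U ∨ G.rt e ∈ U), sz κ W e - U.card - ∑ C ∈ U, j C) +
        inner G W U + exits G κ U := by
    intro U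
    have h1 := (hSlack G κ W A1).1 U
    have h2 := chosen_sum G W A1 U
    have h3 : ∑ C ∈ U, c C = ∑ C ∈ U, jof G κ W A1 C + ∑ C ∈ U, chosen G W A1 {C} -
        ∑ C ∈ U, j C := by
      rw [hc, Finset.sum_sub_distrib, Finset.sum_add_distrib]
    rw [h3, ← h2]
    linarith
  have hineq : ∀ U : Finset G.C, U.Nonempty → U ≠ Finset.univ →
      inner G W U + exits G κ U ≤ ∑ C ∈ U, c C := by
    intro U h1 h2
    have h3 := hj.2 U h1 h2
    rw [hcU U]
    linarith
  have hne : ∀ C : G.C, ({C} : Finset G.C) ≠ Finset.univ := by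
    intro C h
    have h1 : G.lf none = C := by
      have : G.lf none ∈ ({C} : Finset G.C) := h ▸ Finset.mem_univ _
      simpa using this
    have h2 : G.rt none = C := by
      have : G.rt none ∈ ({C} : Finset G.C) := h ▸ Finset.mem_univ _
      simpa using this
    have h3 := G.lf_left none
    have h4 := G.rt_left none
    rw [h1] at h3
    rw [h2] at h4
    exact h4 h3
  have hc0 : ∀ C, 0 ≤ c C := by
    intro C
    have h1 := hineq {C} (Finset.singleton_nonempty C) (hne C)
    rw [Finset.sum_singleton] at h1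
    have h2 := inner_nonneg G W {C}
    have h3 := exits_nonneg G κ {C}
    linarith
  have htot : ∑ C, c C = (W.card : ℤ) := by
    have h1 := hcU Finset.univ
    have h2 := hj.1
    rw [h1, inner_univ, exits_univ, h2]
    have h3 : (Finset.univ.filter fun e : Option V => (G.lf e ∈ (Finset.univ : Finset G.C) ∨
        G.rt e ∈ (Finset.univ : Finset G.C))) = Finset.univ := by
      ext e
      simp
    rw [h3, Finset.card_univ]
    ring
  have hinner : ∀ U : Finset G.C, inner G W U ≤ ∑ C ∈ U, c C := by
    intro U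
    rcases Finset.eq_empty_or_nonempty U with h | h
    · subst h
      rw [inner_empty]
      simp
    · by_cases h' : U = Finset.univ
      · subst h'
        rw [inner_univ, htot]
      · have h1 := hineq U h h'
        have h3 := exits_nonneg G κ U
        linarith
  obtain ⟨A0, hA0, hA0c⟩ := hHall G W (fun C => (c C).toNat) (by
      have h1 : (((∑ C, (c C).toNat : ℕ)) : ℤ) = (W.card : ℤ) := by
        rw [Nat.cast_sum, ← htot]
        apply Finset.sum_congr rfl
        intro C _
        exact Int.toNat_of_nonneg (hc0 C)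
      exact_mod_cast h1) (by
      intro U
      refine (hinner U).trans (le_of_eq ?_)
      apply Finset.sum_congr rfl
      intro C _
      exact (Int.toNat_of_nonneg (hc0 C)).symm)
  have hA0c' : ∀ C, chosen G W A0 {C} = c C := by
    intro C
    rw [hA0c C]
    exact Int.toNat_of_nonneg (hc0 C)
  -- the potentials
  let S : Finset (V → Bool) := Finset.univ.filter fun A =>
    (∀ v, v ∉ W → A v = true) ∧ ∀ C, chosen G W A {C} = c C
  have hmem : ∀ A, A ∈ S ↔ ((∀ v, v ∉ W → A v = true) ∧ ∀ C, chosen G W A {C} = c C) := by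
    intro A
    simp only [S, Finset.mem_filter, Finset.mem_univ, true_and]
  have hpot : ∀ A : V → Bool, ∃ g : Option V → ℝ, A ∈ S → ((∀ e, g (H.β e) = g (H.α e)) ∧
      g none = 0 ∧ g (H.α none) = 0 ∧
      ∀ v : V, ((if A0 v then 1 else 0) - (if A v then 1 else 0) : ℝ) =
        g (H.α (some v)) - g (some v)) := by
    intro A
    by_cases hA : A ∈ S
    · obtain ⟨h1, h2⟩ := (hmem A).1 hA
      obtain ⟨g, hg⟩ := (hSame H G hG W A0 A hA0 h1).1 (fun C => by rw [hA0c' C, h2 C])
      exact ⟨g, fun _ => hg⟩
    · exact ⟨0, fun h => absurd h hA⟩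
  choose gg hgg using hpot
  have hS0 : A0 ∈ S := (hmem A0).2 ⟨hA0, hA0c'⟩
  obtain ⟨A, hAS, hmax⟩ := Finset.exists_max_image S (fun A => ∑ e, gg A e) ⟨A0, hS0⟩
  obtain ⟨hA1', hA2'⟩ := (hmem A).1 hAS
  refine ⟨A, ?_, ?_⟩
  · by_contra hnot
    have hreach : ¬ Reach H.up (H.dn κ) W A := by
      intro h
      apply hnot
      unfold Hyp.trees
      simp only [Finset.mem_filter, Finset.mem_univ, true_and]
      exact ⟨hA1', h⟩
    obtain ⟨Z, zp, zq, g, hZ⟩ := hCycPot hCycle H κ W A hreach
    rcases le_or_gt (g none) 0 with h0 | h0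
    · obtain ⟨U, hU1, hU2, hU3⟩ := hCase1 H G hG κ W A Z zp zq g hZ h0
      have h1 := hineq U hU1 hU2
      rw [chosen_sum G W A U, Finset.sum_congr rfl (fun C _ => hA2' C)] at hU3
      linarith
    · obtain ⟨A', g₁, hA', hface, hpos, ⟨e0, he0⟩, hn, hαn, hdiff⟩ :=
        hCase2 H κ W A Z zp zq g hZ h0 hA1'
      have hsame := (hSame H G hG W A A' hA1' hA').2 ⟨g₁, hface, hn, hαn, hdiff⟩
      have hAS' : A' ∈ S := (hmem A').2 ⟨hA', fun C => by rw [← hsame C, hA2' C]⟩
      obtain ⟨p1, p2, p3, p4⟩ := hgg A hAS
      obtain ⟨q1, q2, q3, q4⟩ := hgg A' hAS'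
      -- uniqueness
      have hd1 : ∀ e, (gg A' - gg A - g₁) (H.α e) = (gg A' - gg A - g₁) e := by
        intro e
        simp only [Pi.sub_apply]
        cases e with
        | none => rw [p2, p3, q2, q3, hn, hαn]
        | some v =>
          have e1 := p4 v
          have e2 := q4 v
          have e3 := hdiff v
          linarith
      have hd2 : ∀ e, (gg A' - gg A - g₁) (H.β e) = (gg A' - gg A - g₁) e := by
        intro e
        rw [← hd1 e]
        simp only [Pi.sub_apply]
        rw [p1, q1, hface]
      have hd3 := H.conn _ hd1 hd2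
      have hlt : ∑ e, gg A e < ∑ e, gg A' e := by
        apply Finset.sum_lt_sum
        · intro e _
          have e1 := hd3 e none
          simp only [Pi.sub_apply] at e1
          rw [p2, q2, hn] at e1
          have := hpos e
          linarith
        · refine ⟨e0, Finset.mem_univ _, ?_⟩
          have e1 := hd3 e0 none
          simp only [Pi.sub_apply] at e1
          rw [p2, q2, hn] at e1
          linarith
      have hle := hmax A' hAS'
      linarith
  · funext C
    have h1 := hA2' C
    have h2 : c C = jof G κ W A1 C + chosen G W A1 {C} - j C := rfl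
    have h3 : jof G κ W A C + chosen G W A {C} = jof G κ W A1 C + chosen G W A1 {C} := by
      unfold jof
      ring
    linarith

end Pool.Agent.Helper83.PG
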