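import Pool.Agent.Helper99.PG.Goals

/-!
PROJECT C2, target (a): TREEINJ. The lattice point of a tree determines the tree.
-/

namespace Pool.Agent.Helper83.PG

open Pool.Agent.Helper99.PG
open scoped Classical

theorem tinj_zpow {E : Type} (α : Equiv.Perm E) (f : E → ℝ) (hf : ∀ e, f (α e) = f e)
    (e e' : E) (h : α.SameCycle e e') : f e = f e' := by
  obtain ⟨i, rfl⟩ := h
  have hf' : ∀ e, f (α.symm e) = f e := by
    intro e
    have := hf (α.symm e)
    rw [Equiv.apply_symm_apply] at this
    exact this.symm
  induction i using Int.induction_on with
  | zero => simp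
  | succ n ih =>
    rw [add_comm, zpow_add, zpow_one, Equiv.Perm.mul_apply, hf]
    exact ih
  | pred n ih =>
    rw [sub_eq_add_neg, add_comm, zpow_add, zpow_neg_one, Equiv.Perm.mul_apply]
    have := hf' ((α ^ (-(n : ℤ))) e)
    rw [Equiv.Perm.inv_def, this]
    exact ih

/-- Sums over the picks are determined by the numbers. -/
theorem tinj_pick_sum {V : Type} [Fintype V] [DecidableEq V] (G : BG (Option V)) (W : Finset V)
    (A : V → Bool) (F : G.C → ℝ) :
    ∑ v ∈ W, F (pick G A v) = ∑ C, (chosen G W A {C} : ℝ) * F C := by
  rw [← Finset.sum_fiberwise_of_maps_to (s := W) (t := Finset.univ) (g := fun v => pick G A v)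
    (fun _ _ => Finset.mem_univ _)]
  apply Finset.sum_congr rfl
  intro C _
  rw [Finset.sum_congr rfl (g := fun _ => F C)]
  · rw [Finset.sum_const, nsmul_eq_mul]
    congr 1
    unfold chosen
    push_cast
    congr 2
    ext v
    simp
  · intro v hv
    rw [(Finset.mem_filter.1 hv).2]

theorem tinj_left {V : Type} [Fintype V] [DecidableEq V] (H : Hyp V) (G : BG (Option V))
    (hG : IsCirc H.α H.β G) (W : Finset V) (A A' : V → Bool)
    (h1 : ∀ v, v ∉ W → A v = true) (h2 : ∀ v, v ∉ W → A' v = true)
    (hc : ∀ C, chosen G W A {C} = chosen G W A' {C}) (f : Option V → ℝ)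
    (hf : ∀ e, f (H.α e) = f e) :
    ∑ v : V, f (some v) * ((if A v then 1 else 0) - (if A' v then 1 else 0) : ℝ) = 0 := by
  let F : G.C → ℝ := fun C => if h : ∃ e, G.lf e = C then f (Classical.choose h) else 0
  have hF1 : ∀ e, F (G.lf e) = f e := by
    intro e
    have h : ∃ e', G.lf e' = G.lf e := ⟨e, rfl⟩
    simp only [F, dif_pos h]
    exact tinj_zpow H.α f hf _ _ ((hG.1 _ _).1 (Classical.choose_spec h))
  have hF2 : ∀ e, F (G.rt e) = 0 := by
    intro e
    have h : ¬ ∃ e', G.lf e' = G.rt e := by
      rintro ⟨e', h'⟩
      have := G.lf_left e'
      rw [h'] at this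
      exact G.rt_left e this
    simp only [F, dif_neg h]
  have hp : ∀ (B : V → Bool) (v : V), F (pick G B v) = if B v then f (some v) else 0 := by
    intro B v
    unfold pick
    by_cases h : B v = true
    · rw [if_pos h, if_pos h, hF1]
    · rw [if_neg h, if_neg h, hF2]
  have hs : ∑ v ∈ W, F (pick G A v) = ∑ v ∈ W, F (pick G A' v) := by
    rw [tinj_pick_sum G W A F, tinj_pick_sum G W A' F]
    apply Finset.sum_congr rfl
    intro C _
    rw [hc C]
  simp only [hp] at hs
  have hsub : ∑ v ∈ W, f (some v) * ((if A v then 1 else 0) - (if A' v then 1 else 0) : ℝ) = 0 := by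
    have : ∑ v ∈ W, f (some v) * ((if A v then 1 else 0) - (if A' v then 1 else 0) : ℝ) =
        ∑ v ∈ W, (if A v then f (some v) else 0) - ∑ v ∈ W, (if A' v then f (some v) else 0) := by
      rw [← Finset.sum_sub_distrib]
      apply Finset.sum_congr rfl
      intro v _
      split_ifs <;> ring
    rw [this, hs, sub_self]
  refine Eq.trans ?_ hsub
  symm
  apply Finset.sum_subset (Finset.subset_univ _)
  intro v _ hv
  rw [h1 v hv, h2 v hv]
  simp

theorem tinj_right {V : Type} [Fintype V] [DecidableEq V] (H : Hyp V) (G : BG (Option V))
    (hG : IsCirc H.α H.β G) (W : Finset V) (A A' : V → Bool)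
    (h1 : ∀ v, v ∉ W → A v = true) (h2 : ∀ v, v ∉ W → A' v = true)
    (hc : ∀ C, chosen G W A {C} = chosen G W A' {C}) (f : Option V → ℝ)
    (hf : ∀ e, f (H.β e) = f e) :
    ∑ v : V, f (some v) * ((if A v then 1 else 0) - (if A' v then 1 else 0) : ℝ) = 0 := by
  let F : G.C → ℝ := fun C => if h : ∃ e, G.rt e = C then f (Classical.choose h) else 0
  have hF1 : ∀ e, F (G.rt e) = f e := by
    intro e
    have h : ∃ e', G.rt e' = G.rt e := ⟨e, rfl⟩
    simp only [F, dif_pos h]
    exact tinj_zpow H.β f hf _ _ ((hG.2.1 _ _).1 (Classical.choose_spec h))
  have hF2 : ∀ e, F (G.lf e) = 0 := by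
    intro e
    have h : ¬ ∃ e', G.rt e' = G.lf e := by
      rintro ⟨e', h'⟩
      have := G.lf_left e
      rw [← h'] at this
      exact G.rt_left e' this
    simp only [F, dif_neg h]
  have hp : ∀ (B : V → Bool) (v : V), F (pick G B v) = if B v then 0 else f (some v) := by
    intro B v
    unfold pick
    by_cases h : B v = true
    · rw [if_pos h, if_pos h, hF2]
    · rw [if_neg h, if_neg h, hF1]
  have hs : ∑ v ∈ W, F (pick G A v) = ∑ v ∈ W, F (pick G A' v) := by
    rw [tinj_pick_sum G W A F, tinj_pick_sum G W A' F]
    apply Finset.sum_congr rfl
    intro C _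
    rw [hc C]
  simp only [hp] at hs
  have hsub : ∑ v ∈ W, f (some v) * ((if A v then 1 else 0) - (if A' v then 1 else 0) : ℝ) = 0 := by
    have : ∑ v ∈ W, f (some v) * ((if A v then 1 else 0) - (if A' v then 1 else 0) : ℝ) =
        ∑ v ∈ W, (if A' v then 0 else f (some v)) - ∑ v ∈ W, (if A v then 0 else f (some v)) := by
      rw [← Finset.sum_sub_distrib]
      apply Finset.sum_congr rfl
      intro v _
      split_ifs <;> ring
    rw [this, hs, sub_self]
  refine Eq.trans ?_ hsub
  symm
  apply Finset.sum_subset (Finset.subset_univ _)
  intro v _ hv
  rw [h1 v hv, h2 v hv]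
  simp

/-- The value of the potential at the element before `v` against `β`. -/
theorem tinj_dn {V : Type} [Fintype V] [DecidableEq V] (H : Hyp V) (κ : Bool)
    (g : Option V → ℝ) (hface : ∀ e, g (H.β e) = g (H.α e)) (hn : g (H.α none) = g none) (v : V) :
    (H.dn κ v).elim (g none) (fun w => g (H.α (some w))) = g (some v) := by
  have key : ∀ w, H.β (some w) = some v → g (H.α (some w)) = g (some v) := by
    intro w hw
    rw [← hface, hw]
  have key2 : H.β none = some v → g none = g (some v) := by
    intro h
    rw [← hn, ← hface, h]
  unfold Hyp.dn
  cases κ with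
  | true =>
    simp only [if_true]
    rcases h : H.β.symm (some v) with _ | w
    · have h' : H.β none = some v := by rw [← h, Equiv.apply_symm_apply]
      exact key2 h'
    · have h' : H.β (some w) = some v := by rw [← h, Equiv.apply_symm_apply]
      exact key w h'
  | false =>
    simp only [Bool.false_eq_true, if_false, Option.elim_some]
    rw [Equiv.removeNone_symm]
    rcases h : H.β.symm (some v) with _ | w
    · have h1 := Equiv.removeNone_none H.β.symm h
      have h' : H.β none = some v := by rw [← h, Equiv.apply_symm_apply]
      rw [h1, ← hface, Equiv.apply_symm_apply]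
      exact key2 h'
    · have h1 := Equiv.removeNone_some H.β.symm ⟨w, h⟩
      rw [h1, ← hface, Equiv.apply_symm_apply]

/-- The potential is at most its value at `none`, if it is monotone along the steps. -/
theorem tinj_mono {V : Type} [Fintype V] [DecidableEq V] (H : Hyp V) (κ : Bool) (W : Finset V)
    (A : V → Bool) (hA : Reach H.up (H.dn κ) W A)
    (g : Option V → ℝ) (hface : ∀ e, g (H.β e) = g (H.α e)) (hn : g (H.α none) = g none)
    (h0 : ∀ v, v ∉ W → g (H.α (some v)) = g (some v))
    (h1 : ∀ v ∈ W, A v = true → g (some v) ≤ g (H.α (some v)))
    (h2 : ∀ v ∈ W, A v = false → g (H.α (some v)) ≤ g (some v)) (v : V) :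
    g (some v) ≤ g none := by
  have main : ∀ p : Port V, (if p.2 then g (some p.1) else g (H.α (some p.1))) ≤ g none := by
    intro p
    induction hA p with
    | intro p _ ih =>
      obtain ⟨v, b⟩ := p
      simp only
      -- value after the step
      have hval : ∀ d : Bool, (if v ∈ W then A v else b) = d →
          (if d then g (H.α (some v)) else g (some v)) ≤ g none := by
        intro d hd
        have ih' := fun q hq => ih q hq
        unfold suc at ih'
        simp only [hd] at ih'
        cases d with
        | true =>
          simp only [if_true]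
          rcases hu : H.up v with _ | w
          · have : H.α (some v) = none := hu
            rw [this]
          · have hu' : H.α (some v) = some w := hu
            have := ih' (w, true) (by simp [nxt, hu])
            simp only [if_true] at this
            rw [hu']
            exact this
        | false =>
          simp only [Bool.false_eq_true, if_false]
          have hd1 := tinj_dn H κ g hface hn v
          rcases hu : H.dn κ v with _ | w
          · rw [hu] at hd1
            simp only [Option.elim_none] at hd1
            rw [← hd1]
          · rw [hu] at hd1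
            simp only [Option.elim_some] at hd1
            have := ih' (w, false) (by simp [nxt, hu])
            simp only [Bool.false_eq_true, if_false] at this
            rw [← hd1]
            exact this
      by_cases hv : v ∈ W
      · have h3 := hval (A v) (by rw [if_pos hv])
        cases hAv : A v with
        | true =>
          rw [hAv] at h3
          simp only [if_true] at h3
          have := h1 v hv hAv
          cases b with
          | true => simp only [if_true]; exact this.trans h3
          | false => simp only [Bool.false_eq_true, if_false]; exact h3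
        | false =>
          rw [hAv] at h3
          simp only [Bool.false_eq_true, if_false] at h3
          have := h2 v hv hAv
          cases b with
          | true => simp only [if_true]; exact h3
          | false => simp only [Bool.false_eq_true, if_false]; exact this.trans h3
      · have h3 := hval b (by rw [if_neg hv])
        have := h0 v hv
        cases b with
        | true => simp only [if_true] at h3 ⊢; rw [← this]; exact h3
        | false =>
          simp only [Bool.false_eq_true, if_false] at h3 ⊢
          rw [this]; exact h3
  have := main (v, true)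
  simpa using this

theorem treeInj : GoalTreeInj := by
  intro V _ _ H G hG κ W A hA A' hA' hj
  have hA1 : (∀ v, v ∉ W → A v = true) ∧ Reach H.up (H.dn κ) W A := by
    unfold Hyp.trees at hA
    simpa only [Finset.mem_filter, Finset.mem_univ, true_and] using hA
  have hA2 : (∀ v, v ∉ W → A' v = true) ∧ Reach H.up (H.dn κ) W A' := by
    unfold Hyp.trees at hA'
    simpa only [Finset.mem_filter, Finset.mem_univ, true_and] using hA'
  have hc : ∀ C, chosen G W A {C} = chosen G W A' {C} := by
    intro C
    have := congrFun hj C
    unfold jof at this
    linarith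
  let i : Option V → ℝ := fun e => e.elim 0
    (fun v => ((if A v then 1 else 0) - (if A' v then 1 else 0) : ℝ))
  obtain ⟨g, hg1, hg2⟩ := H.pot i (by
      intro f hf
      rw [Fintype.sum_option]
      simp only [i, Option.elim_none, Option.elim_some, mul_zero, zero_add]
      exact tinj_left H G hG W A A' hA1.1 hA2.1 hc f hf) (by
      intro f hf
      rw [Fintype.sum_option]
      simp only [i, Option.elim_none, Option.elim_some, mul_zero, zero_add]
      exact tinj_right H G hG W A A' hA1.1 hA2.1 hc f hf)
  have hn : g (H.α none) = g none := by
    have := hg1 none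
    simp only [i, Option.elim_none] at this
    linarith
  have hs : ∀ v, g (H.α (some v)) - g (some v) =
      ((if A v then 1 else 0) - (if A' v then 1 else 0) : ℝ) := by
    intro v
    have := hg1 (some v)
    simp only [i, Option.elim_some] at this
    linarith
  have e1 := tinj_mono H κ W A hA1.2 g hg2 hn
    (by
      intro v hv
      have := hs v
      rw [hA1.1 v hv, hA2.1 v hv] at this
      linarith)
    (by
      intro v _ hAv
      have := hs v
      rw [hAv] at this
      simp only [if_true] at this
      split_ifs at this <;> linarith)
    (by
      intro v _ hAv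
      have := hs v
      rw [hAv] at this
      simp only [Bool.false_eq_true, if_false] at this
      split_ifs at this <;> linarith)
  have e2 := tinj_mono H κ W A' hA2.2 (fun e => - g e) (by intro e; rw [hg2]) (by rw [hn])
    (by
      intro v hv
      have := hs v
      rw [hA1.1 v hv, hA2.1 v hv] at this
      linarith)
    (by
      intro v _ hAv
      have := hs v
      rw [hAv] at this
      simp only [if_true] at this
      split_ifs at this <;> linarith)
    (by
      intro v _ hAv
      have := hs v
      rw [hAv] at this
      simp only [Bool.false_eq_true, if_false] at this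
      split_ifs at this <;> linarith)
  have hconst : ∀ e, g e = g none := by
    intro e
    cases e with
    | none => rfl
    | some v =>
      have a1 := e1 v
      have a2 := e2 v
      linarith
  funext v
  have := hs v
  rw [hconst (H.α (some v)), hconst (some v), sub_self] at this
  cases h1 : A v <;> cases h2 : A' v
  · rfl
  · rw [h1, h2] at this
    simp at this
  · rw [h1, h2] at this
    simp at this
  · rfl

end Pool.Agent.Helper83.PG
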